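import Pool.Agent.Helper92.PV.St

/-!
Project PV (MP_ad0dc2_nt), module SG3: signs and sizes of the coordinates of a solution.
-/

set_option autoImplicit false

noncomputable section

namespace Pool.Agent.Helper27.PV

open Pool.Agent.Helper92.PV Pool.Agent.Helper92.PU Pool.Agent.Helper92.PW

private theorem core {δ x y : ℝ} (h8 : |δ| ≤ 1 / 8) (hxy : |x| ≤ |y|) (hy : |y| ≤ 1)
    (he : x ^ 3 + y ^ 3 + 1 = δ) :
    -1 ≤ x ∧ x ≤ 1 ∧ 1 / 4 ≤ 1 + x ^ 3 ∧ -1 ≤ y ∧ y ≤ -(3 / 4) := by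
  have hδ := abs_le.1 h8
  have hx1 := abs_le.1 (hxy.trans hy)
  have hy0 : y < 0 := by
    by_contra hcon
    push Not at hcon
    rw [abs_of_nonneg hcon] at hxy
    have h1 := (abs_le.1 hxy).1
    have h2 : (-y) ^ 3 ≤ x ^ 3 := (Odd.pow_le_pow (n := 3) (by decide)).2 h1
    have h3 : (-y) ^ 3 = -(y ^ 3) := by ring
    linarith [hδ.2]
  have hy1 : -1 ≤ y := (abs_le.1 hy).1
  have hyx : y ≤ x := by
    rw [abs_of_neg hy0] at hxy
    linarith [(abs_le.1 hxy).1]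
  have h1 : y ^ 3 ≤ x ^ 3 := (Odd.pow_le_pow (n := 3) (by decide)).2 hyx
  have h3 : (-(3 / 4) : ℝ) ^ 3 = -(27 / 64) := by norm_num
  have hy34 : y ≤ -(3 / 4) := by
    by_contra hcon
    push Not at hcon
    have h2 : (-(3 / 4) : ℝ) ^ 3 ≤ y ^ 3 := (Odd.pow_le_pow (n := 3) (by decide)).2 hcon.le
    rw [h3] at h2
    linarith [hδ.2]
  refine ⟨hx1.1, hx1.2, ?_, hy1, hy34⟩
  have h4 : y ^ 3 ≤ (-(3 / 4) : ℝ) ^ 3 := (Odd.pow_le_pow (n := 3) (by decide)).2 hy34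
  rw [h3] at h4
  linarith [hδ.1]

theorem hSG3 : StSG3 := by
  intro k B hB hkB p hG
  have hB0 : 0 < B := by linarith
  have hz0 : 0 < |(p.2.2 : ℝ)| := by linarith [hG.z_gt]
  have hz : (p.2.2 : ℝ) ≠ 0 := abs_pos.1 hz0
  have hB3 : 0 < B ^ 3 := by positivity
  have hk : 0 ≤ |(k : ℝ)| := abs_nonneg _
  -- the equation
  have heq : xi p ^ 3 + et p ^ 3 + 1 = (k : ℝ) / (p.2.2 : ℝ) ^ 3 := by
    have h1 : ((p.1 : ℝ)) ^ 3 + (p.2.1 : ℝ) ^ 3 + (p.2.2 : ℝ) ^ 3 = (k : ℝ) := by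
      have h := hG.sol
      unfold Fm at h
      exact_mod_cast h
    rw [← h1]
    unfold xi et
    field_simp
  have hsm : |(k : ℝ) / (p.2.2 : ℝ) ^ 3| ≤ 8 * |(k : ℝ)| / B ^ 3 := by
    rw [abs_div, abs_pow]
    have h1 : (B / 2) ^ 3 ≤ |(p.2.2 : ℝ)| ^ 3 := pow_le_pow_left₀ (by linarith) hG.z_gt.le 3
    have h2 : 8 * |(k : ℝ)| / B ^ 3 = |(k : ℝ)| / (B / 2) ^ 3 := by
      field_simp
      ring
    rw [h2]
    exact div_le_div_of_nonneg_left hk (by positivity) h1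
  have h8 : 8 * |(k : ℝ)| / B ^ 3 ≤ 1 / 8 := by
    rw [div_le_iff₀ hB3]
    linarith [hkB]
  refine ⟨?_, heq, hsm⟩
  refine core (hsm.trans h8) ?_ ?_ heq
  · unfold xi et
    rw [abs_div, abs_div]
    exact div_le_div_of_nonneg_right hG.xy hz0.le
  · unfold et
    rw [abs_div, div_le_one hz0]
    exact hG.yz

end Pool.Agent.Helper27.PV
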